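import Pool.Agent.Helper64.PQ.Goals

set_option autoImplicit false

/-!
Project PQ (MP_2b9d24_gt): choice of exponents and windows (goal A7).
-/

namespace Pool.Agent.Helper83.PQ

open Pool.Agent.Helper64.PQ

variable {X : Type}

lemma pres_inv {d : X → X → X → ℕ} {g : Equiv.Perm X} (h : Pres d g) : Pres d g⁻¹ := by
  intro p q r hq hr
  have hq' : g⁻¹ q ≠ g⁻¹ p := fun e => hq (g⁻¹.injective e)
  have hr' : g⁻¹ r ≠ g⁻¹ p := fun e => hr (g⁻¹.injective e)
  have := h (g⁻¹ p) (g⁻¹ q) (g⁻¹ r) hq' hr'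
  simpa using this.symm

lemma pres_mul {d : X → X → X → ℕ} {g h : Equiv.Perm X} (hg : Pres d g) (hh : Pres d h) :
    Pres d (g * h) := by
  intro p q r hq hr
  have hq' : h q ≠ h p := fun e => hq (h.injective e)
  have hr' : h r ≠ h p := fun e => hr (h.injective e)
  have := hg (h p) (h q) (h r) hq' hr'
  rw [hh p q r hq hr] at this
  exact this

lemma pres_one (d : X → X → X → ℕ) : Pres d (1 : Equiv.Perm X) := by
  intro p q r _ _
  rfl

lemma pres_pow {d : X → X → X → ℕ} {g : Equiv.Perm X} (hg : Pres d g) (n : ℕ) :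
    Pres d (g ^ n) := by
  induction n with
  | zero => rw [pow_zero]; exact pres_one d
  | succ n ih => rw [pow_succ]; exact pres_mul ih hg

lemma app_inv (g : Equiv.Perm X) (p : X) : g (g⁻¹ p) = p := g.apply_symm_apply p

lemma pow_fixed {x : Equiv.Perm X} {o : X} (h : x o = o) (n : ℕ) : (x ^ n) o = o := by
  induction n with
  | zero => rfl
  | succ n ih => rw [pow_succ, Equiv.Perm.mul_apply, h, ih]

/-- The partial words, shifted by one. -/
def ww (x y : Equiv.Perm X) (N : ℕ → ℕ) : ℕ → Equiv.Perm X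
  | 0 => 1
  | n + 1 => word x y N n

/-- The exponents, shifted by one. -/
def mm (N : ℕ → ℕ) : ℕ → ℕ
  | 0 => 0
  | n + 1 => N n

lemma ww_succ (x y : Equiv.Perm X) (N : ℕ → ℕ) (i : ℕ) :
    ww x y N (i + 1) = ww x y N i * x ^ mm N i * y := by
  cases i with
  | zero =>
    change y = 1 * x ^ 0 * y
    rw [pow_zero, one_mul, one_mul]
  | succ i => rfl

theorem goalA7 (h6 : GoalA6) : GoalA7 := by
  intro X t d hP o x y hT
  obtain ⟨C, k, hk, htw⟩ := hT.twist
  have hyo : y o ≠ o := hT.moved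
  have hyo' : y⁻¹ o ≠ o := by
    intro e
    apply hyo
    conv_lhs => rw [← e]
    simp
  have hxn : ∀ n : ℕ, (x ^ n) o = o := pow_fixed hT.fixed
  have hxy : ∀ n : ℕ, (x ^ n) (y o) ≠ o := by
    intro n e
    apply hyo
    apply (x ^ n).injective
    rw [e, hxn]
  obtain ⟨Ky, hKy⟩ : ∃ Ky : ℕ, ∀ p, p ≠ o → p ≠ y o → d p o (y o) ≤ Ky := by
    have hfin := hP.fin o (y o)
    obtain ⟨B, hB⟩ := (hfin.image (fun p => d p o (y o))).bddAbove
    refine ⟨t + B, fun p hp hp' => ?_⟩
    by_cases h : t < d p o (y o)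
    · have : d p o (y o) ≤ B := hB ⟨p, ⟨hp, hp', h⟩, rfl⟩
      omega
    · omega
  obtain ⟨Cy, hCy⟩ : ∃ Cy : ℕ, Cy = d o (y⁻¹ o) (y o) := ⟨_, rfl⟩
  obtain ⟨R, hR⟩ : ∃ R : ℕ, R = C + Cy + 6 * t := ⟨_, rfl⟩
  obtain ⟨M, hM⟩ : ∃ M : ℕ, M = 2 * R + Ky + 40 * t + 1 := ⟨_, rfl⟩
  -- the turns
  have turn : ∀ n : ℕ, d o (y⁻¹ o) ((x ^ n) (y o)) ≤ k * n + C + Cy ∧
      k * n ≤ d o (y⁻¹ o) ((x ^ n) (y o)) + C + Cy := by
    intro n
    obtain ⟨h1, h2⟩ := htw (y o) hyo n
    have h3 := hP.tri o (y⁻¹ o) (y o) ((x ^ n) (y o)) hyo' hyo (hxy n)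
    have h4 := hP.tri o (y o) (y⁻¹ o) ((x ^ n) (y o)) hyo hyo' (hxy n)
    have h5 := hP.symm o (y o) (y⁻¹ o) hyo hyo'
    constructor <;> omega
  -- exponents
  obtain ⟨c, hc⟩ : ∃ c : ℕ → Bool → ℕ, c = fun i b => 2 * i + (if b then 1 else 0) + 1 :=
    ⟨_, rfl⟩
  have hc1 : ∀ i b, 1 ≤ c i b := by
    intro i b
    rw [hc]
    simp
  have hcinj : ∀ i b j b', c i b = c j b' → i = j ∧ b = b' := by
    intro i b j b' h
    rw [hc] at h
    cases b <;> cases b' <;> simp at h ⊢ <;> omega
  have hkN : ∀ i b, M ≤ k * (c i b * M) := by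
    intro i b
    calc M = 1 * (1 * M) := by rw [one_mul, one_mul]
      _ ≤ k * (c i b * M) := Nat.mul_le_mul hk (Nat.mul_le_mul_right M (hc1 i b))
  have hsep : ∀ i b j b', c i b < c j b' → k * (c i b * M) + M ≤ k * (c j b' * M) := by
    intro i b j b' h
    have h1 : (c i b + 1) * M ≤ c j b' * M := Nat.mul_le_mul_right M h
    have h2 : k * ((c i b + 1) * M) ≤ k * (c j b' * M) := Nat.mul_le_mul_left k h1
    have h3 : k * ((c i b + 1) * M) = k * (c i b * M) + k * M := by ring
    have h4 : M ≤ k * M := Nat.le_mul_of_pos_left M hk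
    omega
  refine ⟨fun i b => c i b * M,
    fun i b => {m | k * (c i b * M) ≤ m + R ∧ m ≤ k * (c i b * M) + R}, ?_, ?_, ?_⟩
  · rintro i b m ⟨h1, h2⟩
    have := hkN i b
    omega
  · rintro i b j b' m ⟨h1, h2⟩ ⟨h3, h4⟩
    apply hcinj
    rcases lt_trichotomy (c i b) (c j b') with h | h | h
    · have := hsep i b j b' h
      omega
    · exact h
    · have := hsep j b' i b h
      omega
  · intro b n
    obtain ⟨N, hN⟩ : ∃ N : ℕ → ℕ, N = fun k => c k b * M := ⟨_, rfl⟩
    have hww : word x y (fun k => c k b * M) n = ww x y N (n + 1) := by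
      rw [hN]
      rfl
    obtain ⟨a, ha⟩ : ∃ a : ℕ → X, a = fun i => ww x y N i o := ⟨_, rfl⟩
    have ha' : ∀ i, a i = ww x y N i o := fun i => by rw [ha]
    have hpw : ∀ i, Pres d (ww x y N i) := by
      intro i
      induction i with
      | zero => exact pres_one d
      | succ i ih =>
        rw [ww_succ]
        exact pres_mul (pres_mul ih (pres_pow hT.presx _)) hT.presy
    have hsucc : ∀ i, a (i + 1) = ww x y N i ((x ^ mm N i) (y o)) := by
      intro i
      rw [ha', ww_succ]
      rfl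
    have hprev : ∀ i, a i = ww x y N (i + 1) (y⁻¹ o) := by
      intro i
      rw [ha', ww_succ, Equiv.Perm.mul_apply, Equiv.Perm.mul_apply, app_inv,
        hxn]
    have hne : ∀ i, a i ≠ a (i + 1) := by
      intro i e
      rw [hsucc, ha'] at e
      exact hxy _ ((ww x y N i).injective e).symm
    have hturn : ∀ i, d (a (i + 1)) (a i) (a (i + 2)) = d o (y⁻¹ o) ((x ^ N i) (y o)) := by
      intro i
      rw [hprev i, hsucc (i + 1), ha' (i + 1)]
      exact hpw (i + 1) _ _ _ hyo' (hxy _)
    have hside : ∀ i p, p ≠ a i → p ≠ a (i + 1) → d p (a i) (a (i + 1)) ≤ Ky := by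
      intro i p h1 h2
      obtain ⟨g, hg⟩ : ∃ g : Equiv.Perm X, g = ww x y N i * x ^ mm N i := ⟨_, rfl⟩
      have e1 : a i = g o := by
        rw [hg, Equiv.Perm.mul_apply, hxn, ha']
      have e2 : a (i + 1) = g (y o) := by
        rw [hg, Equiv.Perm.mul_apply, hsucc]
      have hgp : Pres d g := by
        rw [hg]
        exact pres_mul (hpw i) (pres_pow hT.presx _)
      have e3 : p = g (g⁻¹ p) := (app_inv g p).symm
      have h1' : g⁻¹ p ≠ o := by
        intro e
        apply h1
        rw [e1, ← e, app_inv]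
      have h2' : g⁻¹ p ≠ y o := by
        intro e
        apply h2
        rw [e2, ← e, app_inv]
      rw [e1, e2, e3, hgp _ _ _ h1'.symm h2'.symm]
      exact hKy _ h1' h2'
    have hkN' : ∀ i, M ≤ k * N i := by
      intro i
      rw [hN]
      exact hkN i b
    obtain ⟨A1, A2, A3⟩ := h6 X t d hP (n + 1) Ky a (fun i _ => hne i)
      (fun i _ => by
        rw [hturn]
        have h1 := (turn (N i)).2
        have h2 := hkN' i
        have := hP.pos
        omega)
      (fun i _ p h1 h2 => hside i p h1 h2)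
    have a0 : a 0 = o := by
      rw [ha']
      rfl
    have an : a (n + 1) = word x y (fun k => c k b * M) n o := by
      rw [ha', hww]
    have key : ∀ i, i < n → ∀ m, d (a (i + 1)) o (a (n + 1)) ≤ m →
        m ≤ d (a (i + 1)) o (a (n + 1)) + 4 * t →
        k * (c i b * M) ≤ m + R ∧ m ≤ k * (c i b * M) + R := by
      intro i hi m h1 h2
      obtain ⟨h3, h4⟩ := A2 (i + 1) (by omega) (by omega)
      have e : i + 1 - 1 = i := by omega
      rw [e, hturn, a0] at h3 h4
      obtain ⟨h5, h6⟩ := turn (N i)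
      have e2 : k * (c i b * M) = k * N i := by rw [hN]
      rw [e2]
      constructor <;> omega
    intro i hi
    refine ⟨a (i + 1), ?_, ?_, ?_, ?_⟩
    · rw [← a0]
      exact (A1 0 (i + 1) (n + 1) (by omega) (by omega) le_rfl).1.symm
    · rw [← an]
      exact (A1 0 (i + 1) (n + 1) (by omega) (by omega) le_rfl).2.1
    · rw [← an]
      exact key i hi
    · rw [← an]
      intro z' hz1 hz2 m b' h1 h2 h3
      by_cases h : ∀ j ≤ n + 1, z' ≠ a j
      · exfalso
        have h4 := A3 z' h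
        rw [a0] at h4
        have h5 := hkN i b'
        have h6 := h3.1
        omega
      · push Not at h
        obtain ⟨j, hj, rfl⟩ := h
        obtain ⟨j', rfl⟩ : ∃ j', j = j' + 1 := by
          refine ⟨j - 1, ?_⟩
          have : j ≠ 0 := by
            rintro rfl
            exact hz1 a0
          omega
        have hj' : j' < n := by
          have : j' ≠ n := by
            rintro rfl
            exact hz2 rfl
          omega
        obtain ⟨h4, h5⟩ := key j' hj' m h1 h2
        have h6 := h3.1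
        have h7 := h3.2
        have : j' = i := by
          have : c j' b = c i b' := by
            rcases lt_trichotomy (c j' b) (c i b') with h | h | h
            · have := hsep _ _ _ _ h
              omega
            · exact h
            · have := hsep _ _ _ _ h
              omega
          exact (hcinj _ _ _ _ this).1
        rw [this]

end Pool.Agent.Helper83.PQ
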